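import Pool.Agent.PRT.StmtsB

/-!
Row DTB of the squad PRT (problem MP_b2962a_an): determinants.
-/

set_option autoImplicit false

namespace Pool.Agent.PRT.H11

open Set MeasureTheory
open scoped ContDiff

theorem half_norm : ‖(1 / 2 : ℝ) • crL‖ ≤ 1 := by
  refine ContinuousLinearMap.opNorm_le_bound₂ _ (by norm_num) fun a b => ?_
  have e : ((1 / 2 : ℝ) • crL) a b = (1 / 2 : ℝ) * cr a b := by
    rw [← crL_apply]
    rfl
  rw [e, Real.norm_eq_abs, abs_mul, abs_of_pos (by norm_num : (0 : ℝ) < 1 / 2)]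
  have := abs_cr_le a b
  linarith

theorem bd_cr {k : ℕ} {C D : ℝ} {f g : E → E} (hf : Bd k C f) (hg : Bd k D g)
    (sf : ContDiff ℝ ∞ f) (sg : ContDiff ℝ ∞ g) :
    ContDiff ℝ ∞ (fun z => cr (f z) (g z)) ∧ Bd k (2 * (2 ^ k * C * D)) (fun z => cr (f z) (g z)) := by
  have e1 : (fun z => cr (f z) (g z)) = fun z => (2 : ℝ) • (((1 / 2 : ℝ) • crL) (f z) (g z)) := by
    funext z
    have e2 : ((1 / 2 : ℝ) • crL) (f z) (g z) = (1 / 2 : ℝ) * cr (f z) (g z) := by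
      rw [← crL_apply]
      rfl
    rw [e2, smul_eq_mul]
    ring
  have s1 : ContDiff ℝ ∞ (fun z => ((1 / 2 : ℝ) • crL) (f z) (g z)) :=
    (((1 / 2 : ℝ) • crL).contDiff.comp sf).clm_apply sg
  have h1 := (Bd.bil ((1 / 2 : ℝ) • crL) half_norm hf hg sf sg).const_smul s1 2
  rw [e1]
  refine ⟨s1.const_smul (2 : ℝ), ?_⟩
  rwa [abs_of_pos (by norm_num : (0 : ℝ) < 2)] at h1

theorem bd_ev {k : ℕ} {C : ℝ} {A : E → E →L[ℝ] E} (hA : Bd k C A) (sA : ContDiff ℝ ∞ A) (e : E)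
    (he : ‖e‖ ≤ 1) : ContDiff ℝ ∞ (fun z => A z e) ∧ Bd k C (fun z => A z e) := by
  refine ⟨sA.clm_apply contDiff_const, ?_⟩
  have h1 := hA.clm sA (ContinuousLinearMap.apply ℝ E e)
  have h2 : ‖ContinuousLinearMap.apply ℝ E e‖ ≤ 1 := by
    refine ContinuousLinearMap.opNorm_le_bound _ (by norm_num) fun B => ?_
    have h3 : (ContinuousLinearMap.apply ℝ E e) B = B e := rfl
    rw [h3, one_mul]
    exact (B.le_opNorm e).trans (mul_le_of_le_one_right (norm_nonneg _) he)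
  refine h1.mono le_rfl ?_
  have := hA.nonneg
  nlinarith

/-- **Row DTB**. -/
theorem dtb : Pool.Agent.PRT.DtbStmt := by
  intro k
  refine ⟨4 * 2 ^ k, ?_⟩
  intro A A' C D sA sA' hC hA hA' hD
  have hC0 : 0 ≤ C := hA.nonneg
  have hD0 : 0 ≤ D := hD.nonneg
  have n1 : ‖((1, 0) : E)‖ ≤ 1 := by rw [Prod.norm_def]; norm_num
  have n2 : ‖((0, 1) : E)‖ ≤ 1 := by rw [Prod.norm_def]; norm_num
  obtain ⟨s1, b1⟩ := bd_ev hA sA (1, 0) n1
  obtain ⟨s2, b2⟩ := bd_ev hA sA (0, 1) n2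
  obtain ⟨s2', b2'⟩ := bd_ev hA' sA' (0, 1) n2
  obtain ⟨s3, b3⟩ := bd_ev hD (sA'.sub sA) (1, 0) n1
  obtain ⟨s4, b4⟩ := bd_ev hD (sA'.sub sA) (0, 1) n2
  obtain ⟨t1, c1⟩ := bd_cr b1 b2 s1 s2
  obtain ⟨t2, c2⟩ := bd_cr b3 b2' s3 s2'
  obtain ⟨t3, c3⟩ := bd_cr b1 b4 s1 s4
  have e1 : (fun z => (A z).det) = fun z => cr (A z (1, 0)) (A z (0, 1)) := funext fun z => det_eq (A z)
  have e2 : (fun z => (A' z).det - (A z).det) = fun z => cr ((A' z - A z) (1, 0)) (A' z (0, 1)) +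
      cr (A z (1, 0)) ((A' z - A z) (0, 1)) := by
    funext z
    rw [det_eq, det_eq]
    unfold cr
    have e3 : ∀ u : E, (A' z - A z) u = A' z u - A z u := fun u => rfl
    rw [e3, e3]
    simp only [Prod.fst_sub, Prod.snd_sub]
    ring
  rw [e1, e2]
  refine ⟨t1, c1.mono le_rfl ?_, (c2.add c3 t2 t3).mono le_rfl ?_⟩
  · push_cast
    have : 0 ≤ (2 : ℝ) ^ k * C ^ 2 := by positivity
    nlinarith
  · push_cast
    have : 0 ≤ (2 : ℝ) ^ k * C * D := by positivity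
    nlinarith

end Pool.Agent.PRT.H11
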