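import Pool.Agent.PRT.StmtsD

/-!
Row KNC of the squad PRT (problem MP_b2962a_an): bounds for the Knothe map.
-/

set_option autoImplicit false

namespace Pool.Agent.PRT.H11

open Set MeasureTheory
open scoped ContDiff

/-- the primitive in the second variable -/
noncomputable def GG (h : E → ℝ) (z : E) : ℝ := ∫ t in (0 : ℝ)..z.2, h (z.1, t)

/-- the mean over the second variable -/
noncomputable def AA (h : E → ℝ) (z : E) : ℝ := av h z.1

theorem gg_smooth (hP : ParStmt) {h : E → ℝ} (sh : ContDiff ℝ ∞ h) : ContDiff ℝ ∞ (GG h) :=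
  (hP h sh).1

theorem aa_smooth (hA : AvmStmt) {h : E → ℝ} (sh : ContDiff ℝ ∞ h) : ContDiff ℝ ∞ (AA h) :=
  (hA h sh).1

theorem aa_bd (hA : AvmStmt) {h : E → ℝ} (sh : ContDiff ℝ ∞ h) {k : ℕ} {C : ℝ} (hb : Bd k C h) :
    Bd k ((k + 1) * C) (AA h) := (hA h sh).2 k C hb

theorem cont_line {h : E → ℝ} (sh : Continuous h) (x : ℝ) : Continuous fun t => h (x, t) :=
  sh.comp (Continuous.prodMk_right x)

theorem int_line {h : E → ℝ} (sh : Continuous h) (x a b : ℝ) :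
    IntervalIntegrable (fun t => h (x, t)) volume a b := (cont_line sh x).intervalIntegrable a b

/-- the primitive of a periodic function with mean zero is periodic -/
theorem gg_per {h : E → ℝ} (sh : Continuous h) (hp : ∀ x t : ℝ, h (x, t + 1) = h (x, t))
    (h0 : ∀ x, av h x = 0) (x : ℝ) : Function.Periodic (fun y => GG h (x, y)) 1 := by
  intro y
  have hp' : Function.Periodic (fun t => h (x, t)) 1 := fun t => hp x t
  show ∫ t in (0 : ℝ)..(y + 1), h (x, t) = ∫ t in (0 : ℝ)..y, h (x, t)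
  rw [← intervalIntegral.integral_add_adjacent_intervals (int_line sh x 0 y) (int_line sh x y (y + 1)),
    hp'.intervalIntegral_add_eq y 0, zero_add]
  have h1 : ∫ t in (0 : ℝ)..1, h (x, t) = 0 := h0 x
  rw [h1, add_zero]

theorem gg_bd (hP : ParStmt) {h : E → ℝ} (sh : ContDiff ℝ ∞ h)
    (hp : ∀ x t : ℝ, h (x, t + 1) = h (x, t)) (h0 : ∀ x, av h x = 0) {k : ℕ} {C : ℝ}
    (hb : Bd k C h) : Bd k ((k + 1) * C) (GG h) := by
  intro i hi z
  obtain ⟨b, hbz⟩ : ∃ b : ℤ, b = -⌊z.2⌋ := ⟨_, rfl⟩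
  have e1 : GG h = fun w => GG h (w + ((0 : ℝ), (b : ℝ))) := by
    funext w
    have := (gg_per sh.continuous hp h0 w.1).int_mul b w.2
    have e2 : w + ((0 : ℝ), (b : ℝ)) = (w.1, w.2 + b * 1) := by
      ext <;> simp
    rw [e2]
    exact this.symm
  have e3 : iteratedFDeriv ℝ i (GG h) z = iteratedFDeriv ℝ i (GG h) (z + ((0 : ℝ), (b : ℝ))) := by
    conv_lhs => rw [e1]
    exact iteratedFDeriv_comp_add_right i _ z
  rw [e3]
  refine (hP h sh).2 k C hb i hi _ ?_ ?_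
  · show 0 ≤ z.2 + (b : ℝ)
    rw [hbz]
    push_cast
    have := Int.floor_le z.2
    linarith
  · show z.2 + (b : ℝ) ≤ 1
    rw [hbz]
    push_cast
    have := Int.lt_floor_add_one z.2
    linarith

theorem gg_sub {h h' : E → ℝ} (sh : Continuous h) (sh' : Continuous h') (z : E) :
    GG (fun w => h' w - h w) z = GG h' z - GG h z :=
  intervalIntegral.integral_sub (int_line sh' z.1 0 z.2) (int_line sh z.1 0 z.2)

theorem av_sub {h h' : E → ℝ} (sh : Continuous h) (sh' : Continuous h') (x : ℝ) :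
    av (fun w => h' w - h w) x = av h' x - av h x :=
  intervalIntegral.integral_sub (int_line sh' x 0 1) (int_line sh x 0 1)

/-- the total mass -/
theorem int_av {h : E → ℝ} (sh : Continuous h) : ∫ x in (0 : ℝ)..1, av h x = ∫ z in Q, h z := by
  have h1 : IntegrableOn h (Icc (0 : ℝ) 1 ×ˢ Icc (0 : ℝ) 1) ((volume : Measure ℝ).prod volume) :=
    sh.continuousOn.integrableOn_compact (isCompact_Icc.prod isCompact_Icc)
  have h2 := setIntegral_prod h h1
  show _ = ∫ z in Icc (0 : ℝ) 1 ×ˢ Icc (0 : ℝ) 1, h z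
  rw [Measure.volume_eq_prod, h2, intervalIntegral.integral_of_le (by norm_num),
    integral_Icc_eq_integral_Ioc]
  refine setIntegral_congr_fun measurableSet_Ioc fun x _ => ?_
  show av h x = ∫ y in Icc (0 : ℝ) 1, h (x, y)
  rw [integral_Icc_eq_integral_Ioc, ← intervalIntegral.integral_of_le (by norm_num)]
  rfl

/-! ### linear maps -/

theorem bm_lin (k : ℕ) (A : E →L[ℝ] E) (hA : ‖A‖ ≤ 1) : Bm k 1 (fun z => A z) := by
  have e : fderiv ℝ (fun z => A z) = fun _ => A := by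
    funext z
    exact A.fderiv
  have h : Bm (k + 1) 1 (fun z => A z) := by
    rw [bm_succ, e]
    exact (bd_const k A).mono le_rfl hA
  exact h.mono (Nat.le_succ _) le_rfl

/-- `z ↦ (z.2, z.1)` -/
noncomputable def sw : E →L[ℝ] E :=
  (ContinuousLinearMap.snd ℝ ℝ ℝ).prod (ContinuousLinearMap.fst ℝ ℝ ℝ)

/-- `z ↦ (0, z.1)` -/
noncomputable def lm : E →L[ℝ] E := (0 : E →L[ℝ] ℝ).prod (ContinuousLinearMap.fst ℝ ℝ ℝ)

theorem sw_apply (z : E) : sw z = (z.2, z.1) := rfl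
theorem lm_apply (z : E) : lm z = (0, z.1) := rfl

theorem sw_norm : ‖sw‖ ≤ 1 := by
  refine ContinuousLinearMap.opNorm_le_bound _ (by norm_num) fun z => ?_
  rw [sw_apply, one_mul, Prod.norm_def, Prod.norm_def]
  exact max_le (le_max_right _ _) (le_max_left _ _)

theorem lm_norm : ‖lm‖ ≤ 1 := by
  refine ContinuousLinearMap.opNorm_le_bound _ (by norm_num) fun z => ?_
  rw [lm_apply, one_mul, Prod.norm_def, Prod.norm_def, norm_zero]
  exact max_le (le_trans (norm_nonneg z.1) (le_max_left _ _)) (le_max_left _ _)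

theorem comp_lin {V : Type} [NormedAddCommGroup V] [NormedSpace ℝ V] {k : ℕ} {C : ℝ} {ψ : E → V}
    (hψ : Bd k C ψ) (sψ : ContDiff ℝ ∞ ψ) (A : E →L[ℝ] E) (hA : ‖A‖ ≤ 1) :
    ContDiff ℝ ∞ (fun z => ψ (A z)) ∧ Bd k ((k.factorial : ℝ) * C) (fun z => ψ (A z)) := by
  refine ⟨sψ.comp A.contDiff, ?_⟩
  have h := hψ.comp (bm_lin k A hA) le_rfl sψ A.contDiff
  refine h.mono le_rfl (le_of_eq ?_)
  rw [one_pow, mul_one]

/-! ### the two components -/

/-- the density divided by its mean -/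
noncomputable def sg (ρ : E → ℝ) (z : E) : ℝ := ρ z * (AA ρ z)⁻¹

/-- the mean as a function of the second variable -/
noncomputable def mb (ρ : E → ℝ) (z : E) : ℝ := AA ρ (sw z)

theorem dn_per {ρ : E → ℝ} (h : Dn ρ) (x t : ℝ) : ρ (x, t + 1) = ρ (x, t) := by
  have := h.per 0 1 (x, t)
  have e : ((x, t) : E) + iv 0 1 = (x, t + 1) := by
    unfold iv
    ext <;> simp
  rwa [e] at this

theorem dn_per' {ρ : E → ℝ} (h : Dn ρ) (x t : ℝ) : ρ (x + 1, t) = ρ (x, t) := by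
  have := h.per 1 0 (x, t)
  have e : ((x, t) : E) + iv 1 0 = (x + 1, t) := by
    unfold iv
    ext <;> simp
  rwa [e] at this

theorem aa_ge {ρ : E → ℝ} (h : Dn ρ) (z : E) : 1 / 2 ≤ AA ρ z := by
  have h1 : ∫ _t in (0 : ℝ)..1, (1 / 2 : ℝ) ≤ ∫ t in (0 : ℝ)..1, ρ (z.1, t) :=
    intervalIntegral.integral_mono_on (by norm_num) (by simp) (int_line h.sm.continuous z.1 0 1)
      fun t _ => h.lb _
  have h2 : (1 - 0 : ℝ) • (1 / 2 : ℝ) = 1 / 2 := by norm_num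
  rw [intervalIntegral.integral_const, h2] at h1
  exact h1

theorem av_sg {ρ : E → ℝ} (h : Dn ρ) (x : ℝ) : av (sg ρ) x = 1 := by
  have h0 : (1 / 2 : ℝ) ≤ av ρ x := aa_ge h (x, 0)
  have h1 : av (sg ρ) x = av ρ x * (av ρ x)⁻¹ := by
    show ∫ t in (0 : ℝ)..1, ρ (x, t) * (av ρ x)⁻¹ = _
    rw [intervalIntegral.integral_mul_const]
    rfl
  rw [h1]
  exact mul_inv_cancel₀ (by linarith)

theorem k2_eq (ρ : E → ℝ) (z : E) : k2 ρ z = GG (sg ρ) z - AA (GG (sg ρ)) z + 1 / 2 := by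
  have h1 : ∀ r : ℝ, GG (sg ρ) (z.1, r) = (∫ t in (0 : ℝ)..r, ρ (z.1, t)) / av ρ z.1 := by
    intro r
    show ∫ t in (0 : ℝ)..r, ρ (z.1, t) * (av ρ z.1)⁻¹ = _
    rw [intervalIntegral.integral_mul_const]
    rfl
  have h2 : GG (sg ρ) z = (∫ t in (0 : ℝ)..z.2, ρ (z.1, t)) / av ρ z.1 := h1 z.2
  have h3 : AA (GG (sg ρ)) z = ∫ r in (0 : ℝ)..1, (∫ t in (0 : ℝ)..r, ρ (z.1, t)) / av ρ z.1 := by
    show ∫ r in (0 : ℝ)..1, GG (sg ρ) (z.1, r) = _
    exact congrArg (fun f => ∫ r in (0 : ℝ)..1, f r) (funext h1)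
  rw [h2, h3]
  rfl

theorem k1_eq (ρ : E → ℝ) (x : ℝ) : k1 ρ x = GG (mb ρ) (0, x) - av (GG (mb ρ)) 0 + 1 / 2 := rfl

/-- products of real functions -/
theorem bd_mul {k : ℕ} {C D : ℝ} {f g : E → ℝ} (hf : Bd k C f) (hg : Bd k D g)
    (sf : ContDiff ℝ ∞ f) (sg : ContDiff ℝ ∞ g) : Bd k (2 ^ k * C * D) (fun z => f z * g z) :=
  Bd.bil (ContinuousLinearMap.mul ℝ ℝ) (ContinuousLinearMap.opNorm_mul_le ℝ ℝ) hf hg sf sg

/-- the second component -/
theorem comp2 (hP : ParStmt) (hA : AvmStmt) {k cR : ℕ}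
    (hR : ∀ (ψ : E → ℝ) (C : ℝ), ContDiff ℝ ∞ ψ → 1 ≤ C → (∀ z, 1 / 2 ≤ ψ z) →
      Bd k C ψ → ContDiff ℝ ∞ (fun z => (ψ z)⁻¹) ∧ Bd k (cR * C ^ cR) (fun z => (ψ z)⁻¹))
    {ρ ρ' : E → ℝ} {L δ : ℝ} (h : Dn ρ) (h' : Dn ρ') (hL : 1 ≤ L) (hb : Bd k L ρ) (hb' : Bd k L ρ')
    (hd : Bd k δ (fun z => ρ' z - ρ z)) {I : ℝ} (hI : I = cR * ((k + 1) * L) ^ cR) {H : ℝ}
    (hH : H = 2 ^ k * δ * I + 2 ^ k * (2 ^ k * (2 ^ k * L * I) * ((k + 1) * δ)) * I) :
    ContDiff ℝ ∞ (fun z => k2 ρ' z - k2 ρ z) ∧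
      Bd k ((k + 1) * H + (k + 1) * ((k + 1) * H)) (fun z => k2 ρ' z - k2 ρ z) := by
  have sm := h.sm
  have sm' := h'.sm
  have sA := aa_smooth hA sm
  have sA' := aa_smooth hA sm'
  have hkL : 1 ≤ ((k : ℝ) + 1) * L := by
    have : (0 : ℝ) ≤ k := Nat.cast_nonneg k
    nlinarith
  obtain ⟨si, bi⟩ := hR (AA ρ) _ sA hkL (aa_ge h) (aa_bd hA sm hb)
  obtain ⟨si', bi'⟩ := hR (AA ρ') _ sA' hkL (aa_ge h') (aa_bd hA sm' hb')
  rw [← hI] at bi bi'
  have ssg : ContDiff ℝ ∞ (sg ρ) := sm.mul si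
  have ssg' : ContDiff ℝ ∞ (sg ρ') := sm'.mul si'
  have sd : ContDiff ℝ ∞ (fun z => ρ' z - ρ z) := sm'.sub sm
  have bA : Bd k ((k + 1) * δ) (AA (fun z => ρ' z - ρ z)) := aa_bd hA sd hd
  have sAd : ContDiff ℝ ∞ (AA (fun z => ρ' z - ρ z)) := aa_smooth hA sd
  -- the difference of the normalized densities
  have e1 : (fun z => sg ρ' z - sg ρ z) = fun z => (ρ' z - ρ z) * (AA ρ' z)⁻¹ -
      (ρ z * (AA ρ z)⁻¹ * AA (fun z => ρ' z - ρ z) z) * (AA ρ' z)⁻¹ := by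
    funext z
    have g1 := aa_ge h z
    have g2 := aa_ge h' z
    have g3 : AA (fun z => ρ' z - ρ z) z = AA ρ' z - AA ρ z :=
      av_sub sm.continuous sm'.continuous z.1
    rw [g3]
    unfold sg
    have n1 : AA ρ z ≠ 0 := by linarith
    have n2 : AA ρ' z ≠ 0 := by linarith
    field_simp
    ring
  have b1 := bd_mul hd bi' sd si'
  have b2 := bd_mul (bd_mul (bd_mul hb bi sm si) bA (sm.mul si) sAd) bi'
    ((sm.mul si).mul sAd) si'
  have b3 : Bd k H (fun z => sg ρ' z - sg ρ z) := by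
    rw [e1, hH]
    exact b1.sub b2 (sd.mul si') (((sm.mul si).mul sAd).mul si')
  have s3 : ContDiff ℝ ∞ (fun z => sg ρ' z - sg ρ z) := ssg'.sub ssg
  have p3 : ∀ x t : ℝ, (fun z => sg ρ' z - sg ρ z) (x, t + 1) = (fun z => sg ρ' z - sg ρ z) (x, t) := by
    intro x t
    show ρ' (x, t + 1) * (av ρ' x)⁻¹ - ρ (x, t + 1) * (av ρ x)⁻¹ =
      ρ' (x, t) * (av ρ' x)⁻¹ - ρ (x, t) * (av ρ x)⁻¹
    rw [dn_per h, dn_per h']
  have m3 : ∀ x, av (fun z => sg ρ' z - sg ρ z) x = 0 := by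
    intro x
    rw [av_sub ssg.continuous ssg'.continuous, av_sg h, av_sg h', sub_self]
  have b4 := gg_bd hP s3 p3 m3 b3
  have s4 := gg_smooth hP s3
  have b5 := aa_bd hA s4 b4
  have s5 := aa_smooth hA s4
  have e2 : (fun z => k2 ρ' z - k2 ρ z) = fun z => GG (fun z => sg ρ' z - sg ρ z) z -
      AA (GG (fun z => sg ρ' z - sg ρ z)) z := by
    funext z
    have g1 := gg_sub ssg.continuous ssg'.continuous z
    have g2 : AA (GG (fun z => sg ρ' z - sg ρ z)) z = AA (GG (sg ρ')) z - AA (GG (sg ρ)) z := by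
      have g3 : GG (fun z => sg ρ' z - sg ρ z) = fun z => GG (sg ρ') z - GG (sg ρ) z :=
        funext fun z => gg_sub ssg.continuous ssg'.continuous z
      rw [g3]
      exact av_sub (gg_smooth hP ssg).continuous (gg_smooth hP ssg').continuous z.1
    rw [k2_eq, k2_eq, g1, g2]
    ring
  rw [e2]
  exact ⟨s4.sub s5, b4.sub b5 s4 s5⟩

/-- the first component -/
theorem comp1 (hP : ParStmt) (hA : AvmStmt) {k : ℕ}
    {ρ ρ' : E → ℝ} {δ : ℝ} (h : Dn ρ) (h' : Dn ρ')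
    (hd : Bd k δ (fun z => ρ' z - ρ z)) {H : ℝ}
    (hH : H = (k + 1) * ((k.factorial : ℝ) * ((k + 1) * δ))) :
    ContDiff ℝ ∞ (fun z : E => k1 ρ' z.1 - k1 ρ z.1) ∧
      Bd k ((k.factorial : ℝ) * H + H) (fun z : E => k1 ρ' z.1 - k1 ρ z.1) := by
  have sm := h.sm
  have sm' := h'.sm
  have sd : ContDiff ℝ ∞ (fun z => ρ' z - ρ z) := sm'.sub sm
  obtain ⟨s1, b1⟩ := comp_lin (aa_bd hA sd hd) (aa_smooth hA sd) sw sw_norm
  have sb : ContDiff ℝ ∞ (mb ρ) := (aa_smooth hA sm).comp sw.contDiff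
  have sb' : ContDiff ℝ ∞ (mb ρ') := (aa_smooth hA sm').comp sw.contDiff
  have e1 : (fun z => AA (fun z => ρ' z - ρ z) (sw z)) = fun z => mb ρ' z - mb ρ z :=
    funext fun z => av_sub sm.continuous sm'.continuous z.2
  rw [e1] at s1 b1
  have p1 : ∀ x t : ℝ, (fun z => mb ρ' z - mb ρ z) (x, t + 1) = (fun z => mb ρ' z - mb ρ z) (x, t) := by
    intro x t
    have g1 : ∀ {ρ : E → ℝ}, Dn ρ → av ρ (t + 1) = av ρ t := by
      intro ρ h
      show ∫ r in (0 : ℝ)..1, ρ (t + 1, r) = ∫ r in (0 : ℝ)..1, ρ (t, r)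
      exact congrArg (fun f => ∫ r in (0 : ℝ)..1, f r) (funext fun r => dn_per' h t r)
    show av ρ' (t + 1) - av ρ (t + 1) = av ρ' t - av ρ t
    rw [g1 h, g1 h']
  have m1 : ∀ x, av (fun z => mb ρ' z - mb ρ z) x = 0 := by
    intro x
    rw [av_sub sb.continuous sb'.continuous]
    have g1 : ∀ {ρ : E → ℝ}, Dn ρ → av (mb ρ) x = 1 := by
      intro ρ h
      have : av (mb ρ) x = ∫ t in (0 : ℝ)..1, av ρ t := rfl
      rw [this, int_av h.sm.continuous, h.one]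
    rw [g1 h, g1 h', sub_self]
  have b2 := gg_bd hP s1 p1 m1 b1
  rw [← hH] at b2
  have s2 := gg_smooth hP s1
  obtain ⟨s3, b3⟩ := comp_lin b2 s2 lm lm_norm
  have e2 : (fun z : E => k1 ρ' z.1 - k1 ρ z.1) = fun z => GG (fun z => mb ρ' z - mb ρ z) (lm z) -
      av (GG (fun z => mb ρ' z - mb ρ z)) 0 := by
    funext z
    have g1 := gg_sub sb.continuous sb'.continuous (lm z)
    have g2 : av (GG (fun z => mb ρ' z - mb ρ z)) 0 = av (GG (mb ρ')) 0 - av (GG (mb ρ)) 0 := by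
      have g3 : GG (fun z => mb ρ' z - mb ρ z) = fun z => GG (mb ρ') z - GG (mb ρ) z :=
        funext fun z => gg_sub sb.continuous sb'.continuous z
      rw [g3]
      exact av_sub (gg_smooth hP sb).continuous (gg_smooth hP sb').continuous 0
    rw [k1_eq, k1_eq, g1, g2, lm_apply]
    ring
  have b4 : |av (GG (fun z => mb ρ' z - mb ρ z)) 0| ≤ H := by
    have := intervalIntegral.norm_integral_le_of_norm_le_const (a := (0 : ℝ)) (b := 1) (C := H)
      (f := fun t => GG (fun z => mb ρ' z - mb ρ z) (0, t)) fun t _ => b2.norm_le (0, t)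
    rw [sub_zero, abs_one, mul_one] at this
    exact this
  have b5 : Bd k H (fun _ : E => av (GG (fun z => mb ρ' z - mb ρ z)) 0) :=
    (bd_const k _).mono le_rfl b4
  rw [e2]
  exact ⟨s3.sub contDiff_const, b3.sub b5 s3 contDiff_const⟩

/-! ### the constant density -/

theorem dn_one : Dn (fun _ : E => (1 : ℝ)) where
  sm := contDiff_const
  per := fun _ _ _ => rfl
  lb := fun _ => by norm_num
  one := by
    have h := int_av (h := fun _ : E => (1 : ℝ)) continuous_const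
    rw [← h]
    have e : ∀ x : ℝ, av (fun _ : E => (1 : ℝ)) x = 1 := by
      intro x
      show ∫ _t in (0 : ℝ)..1, (1 : ℝ) = 1
      rw [intervalIntegral.integral_const]
      norm_num
    have e2 : (fun x : ℝ => av (fun _ : E => (1 : ℝ)) x) = fun _ => 1 := funext e
    rw [e2, intervalIntegral.integral_const]
    norm_num

theorem kn_one (z : E) : kn (fun _ : E => (1 : ℝ)) z = z := by
  have e : ∀ x : ℝ, av (fun _ : E => (1 : ℝ)) x = 1 := by
    intro x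
    show ∫ _t in (0 : ℝ)..1, (1 : ℝ) = 1
    rw [intervalIntegral.integral_const]
    norm_num
  have e2 : (av fun _ : E => (1 : ℝ)) = fun _ => 1 := funext e
  have h1 : ∀ x : ℝ, k1 (fun _ : E => (1 : ℝ)) x = x := by
    intro x
    unfold k1
    rw [e2]
    simp only [intervalIntegral.integral_const, sub_zero, smul_eq_mul, mul_one, integral_id]
    norm_num
  have h2 : k2 (fun _ : E => (1 : ℝ)) z = z.2 := by
    unfold k2
    rw [e2]
    simp only [intervalIntegral.integral_const, sub_zero, smul_eq_mul, mul_one, div_one,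
      integral_id]
    norm_num
  unfold kn
  rw [h1, h2]

/-- **Row KNC**. -/
theorem knc (hP : ParStmt) (hA : AvmStmt) (hR : RcpStmt) : KncStmt := by
  intro k
  obtain ⟨cR, hcR⟩ := hR k
  obtain ⟨a, ha⟩ : ∃ a : ℕ, a = cR * (k + 1) ^ cR := ⟨_, rfl⟩
  obtain ⟨N1, hN1⟩ : ∃ N : ℕ, N = (k.factorial + 1) * ((k + 1) * (k.factorial * (k + 1))) := ⟨_, rfl⟩
  obtain ⟨N2, hN2⟩ : ∃ N : ℕ, N = ((k + 1) + (k + 1) * (k + 1)) *
      (2 ^ k * a + 2 ^ k * 2 ^ k * 2 ^ k * (k + 1) * a ^ 2) := ⟨_, rfl⟩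
  obtain ⟨c, hc⟩ : ∃ c : ℕ, c = N1 + N2 + (2 * cR + 1) := ⟨_, rfl⟩
  -- the main estimate
  have main : ∀ (ρ ρ' : E → ℝ) (L δ : ℝ), Dn ρ → Dn ρ' → 1 ≤ L → Bd k L ρ → Bd k L ρ' →
      Bd k δ (fun z => ρ' z - ρ z) → ContDiff ℝ ∞ (fun z => kn ρ' z - kn ρ z) ∧
        Bd k (c * L ^ c * δ) (fun z => kn ρ' z - kn ρ z) := by
    intro ρ ρ' L δ h h' hL hb hb' hd
    have hδ : 0 ≤ δ := hd.nonneg
    obtain ⟨I, hI⟩ : ∃ I : ℝ, I = cR * ((k + 1) * L) ^ cR := ⟨_, rfl⟩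
    obtain ⟨H, hH⟩ : ∃ H : ℝ, H = 2 ^ k * δ * I +
      2 ^ k * (2 ^ k * (2 ^ k * L * I) * ((k + 1) * δ)) * I := ⟨_, rfl⟩
    obtain ⟨H1, hH1⟩ : ∃ H : ℝ, H = (k + 1) * ((k.factorial : ℝ) * ((k + 1) * δ)) := ⟨_, rfl⟩
    obtain ⟨s2, b2⟩ := comp2 hP hA hcR h h' hL hb hb' hd hI hH
    obtain ⟨s1, b1⟩ := comp1 hP hA h h' hd hH1
    have c1 := b1.clm s1 (ContinuousLinearMap.inl ℝ ℝ ℝ)
    have c2 := b2.clm s2 (ContinuousLinearMap.inr ℝ ℝ ℝ)
    have t1 : ContDiff ℝ ∞ (fun z : E => (ContinuousLinearMap.inl ℝ ℝ ℝ) (k1 ρ' z.1 - k1 ρ z.1)) :=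
      (ContinuousLinearMap.inl ℝ ℝ ℝ).contDiff.comp s1
    have t2 : ContDiff ℝ ∞ (fun z : E => (ContinuousLinearMap.inr ℝ ℝ ℝ) (k2 ρ' z - k2 ρ z)) :=
      (ContinuousLinearMap.inr ℝ ℝ ℝ).contDiff.comp s2
    have e : (fun z => kn ρ' z - kn ρ z) = fun z =>
        (ContinuousLinearMap.inl ℝ ℝ ℝ) (k1 ρ' z.1 - k1 ρ z.1) +
          (ContinuousLinearMap.inr ℝ ℝ ℝ) (k2 ρ' z - k2 ρ z) := by
      funext z
      unfold kn
      ext <;> simp
    rw [e]
    refine ⟨t1.add t2, (c1.add c2 t1 t2).mono le_rfl ?_⟩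
    have n1 : ‖ContinuousLinearMap.inl ℝ ℝ ℝ‖ ≤ 1 := by
      refine ContinuousLinearMap.opNorm_le_bound _ (by norm_num) fun x => ?_
      rw [one_mul, ContinuousLinearMap.inl_apply, Prod.norm_def, norm_zero]
      exact max_le le_rfl (norm_nonneg _)
    have n2 : ‖ContinuousLinearMap.inr ℝ ℝ ℝ‖ ≤ 1 := by
      refine ContinuousLinearMap.opNorm_le_bound _ (by norm_num) fun x => ?_
      rw [one_mul, ContinuousLinearMap.inr_apply, Prod.norm_def, norm_zero]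
      exact max_le (norm_nonneg _) le_rfl
    have hL0 : 0 ≤ L := by linarith
    have hI0 : 0 ≤ I := by rw [hI]; positivity
    have hH0 : 0 ≤ H := by rw [hH]; positivity
    have hH10 : 0 ≤ H1 := by rw [hH1]; positivity
    -- powers of `L`
    obtain ⟨P, hP'⟩ : ∃ P : ℝ, P = L ^ (2 * cR + 1) := ⟨_, rfl⟩
    have hP1 : 1 ≤ P := by rw [hP']; exact one_le_pow₀ hL
    have i1 : I = a * L ^ cR := by
      rw [hI, ha, mul_pow]
      push_cast
      ring
    have i2 : L ^ cR ≤ P := by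
      rw [hP']
      exact pow_le_pow_right₀ hL (by omega)
    have i3 : L * (L ^ cR) ^ 2 = P := by
      rw [hP']
      ring
    have i4 : H ≤ (2 ^ k * a + 2 ^ k * 2 ^ k * 2 ^ k * (k + 1) * a ^ 2) * P * δ := by
      have g1 : H = 2 ^ k * a * (L ^ cR) * δ +
          2 ^ k * 2 ^ k * 2 ^ k * (k + 1) * a ^ 2 * (L * (L ^ cR) ^ 2) * δ := by
        rw [hH, i1]
        ring
      rw [g1, i3]
      have g2 : 2 ^ k * (a : ℝ) * (L ^ cR) * δ ≤ 2 ^ k * (a : ℝ) * P * δ :=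
        mul_le_mul_of_nonneg_right (mul_le_mul_of_nonneg_left i2 (by positivity)) hδ
      linarith
    have j1 : ‖ContinuousLinearMap.inl ℝ ℝ ℝ‖ * ((k.factorial : ℝ) * H1 + H1) ≤ (N1 : ℝ) * P * δ := by
      have g1 : (0 : ℝ) ≤ (k.factorial : ℝ) * H1 + H1 := by positivity
      refine (mul_le_of_le_one_left g1 n1).trans ?_
      have g2 : (k.factorial : ℝ) * H1 + H1 = (N1 : ℝ) * 1 * δ := by
        rw [hH1, hN1]
        push_cast
        ring
      rw [g2]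
      exact mul_le_mul_of_nonneg_right (mul_le_mul_of_nonneg_left hP1 (by positivity)) hδ
    have j2 : ‖ContinuousLinearMap.inr ℝ ℝ ℝ‖ * ((k + 1) * H + (k + 1) * ((k + 1) * H)) ≤
        (N2 : ℝ) * P * δ := by
      have g1 : (0 : ℝ) ≤ (k + 1) * H + (k + 1) * ((k + 1) * H) := by positivity
      refine (mul_le_of_le_one_left g1 n2).trans ?_
      have g2 : (k + 1) * H + (k + 1) * ((k + 1) * H) = (((k : ℝ) + 1) + (k + 1) * (k + 1)) * H := by
        ring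
      rw [g2]
      refine (mul_le_mul_of_nonneg_left i4 (by positivity)).trans (le_of_eq ?_)
      rw [hN2]
      push_cast
      ring
    have hcN : (N1 : ℝ) + N2 ≤ c := by
      rw [hc]
      push_cast
      have : (0 : ℝ) ≤ cR := Nat.cast_nonneg cR
      linarith
    have hPc : P ≤ L ^ c := by
      rw [hP']
      exact pow_le_pow_right₀ hL (by omega)
    calc ‖ContinuousLinearMap.inl ℝ ℝ ℝ‖ * ((k.factorial : ℝ) * H1 + H1) +
          ‖ContinuousLinearMap.inr ℝ ℝ ℝ‖ * ((k + 1) * H + (k + 1) * ((k + 1) * H))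
        ≤ (N1 : ℝ) * P * δ + (N2 : ℝ) * P * δ := add_le_add j1 j2
      _ = ((N1 : ℝ) + N2) * P * δ := by ring
      _ ≤ c * L ^ c * δ := by
          refine mul_le_mul_of_nonneg_right ?_ hδ
          exact mul_le_mul hcN hPc (by linarith) (Nat.cast_nonneg c)
  refine ⟨2 * c + 1, ?_⟩
  intro ρ ρ' L δ h h' hL hb hb' hd
  have hδ : 0 ≤ δ := hd.nonneg
  have hL0 : 0 ≤ L := by linarith
  have hc1 : (c : ℝ) ≤ ((2 * c + 1 : ℕ) : ℝ) := by exact_mod_cast (by omega : c ≤ 2 * c + 1)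
  have hLc : L ^ c ≤ L ^ (2 * c + 1) := pow_le_pow_right₀ hL (by omega)
  constructor
  · -- comparison with the constant density
    have b1 : Bd k L (fun _ : E => (1 : ℝ)) := by
      refine (bd_const (V := ℝ) k 1).mono le_rfl ?_
      rw [norm_one]
      exact hL
    have b2 : Bd k (L + L) (fun z => ρ z - (fun _ : E => (1 : ℝ)) z) := hb.sub b1 h.sm contDiff_const
    obtain ⟨s3, b3⟩ := main (fun _ => 1) ρ L (L + L) dn_one h hL b1 hb b2
    have e : kn ρ = fun z => z + (kn ρ z - kn (fun _ : E => (1 : ℝ)) z) := by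
      funext z
      rw [kn_one, add_sub_cancel]
    rw [e]
    refine ((bm_id k).add b3.bm contDiff_id s3).mono le_rfl ?_
    have h1 : (1 : ℝ) ≤ L ^ (2 * c + 1) := one_le_pow₀ hL
    have h2 : L ^ c * L ≤ L ^ (2 * c + 1) := by
      rw [← pow_succ]
      exact pow_le_pow_right₀ hL (by omega)
    have h3 : (0 : ℝ) ≤ c := Nat.cast_nonneg c
    calc 1 + (c : ℝ) * L ^ c * (L + L) = 1 + 2 * c * (L ^ c * L) := by ring
      _ ≤ L ^ (2 * c + 1) + 2 * c * L ^ (2 * c + 1) :=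
          add_le_add h1 (mul_le_mul_of_nonneg_left h2 (by positivity))
      _ = ((2 * c + 1 : ℕ) : ℝ) * L ^ (2 * c + 1) := by push_cast; ring
  · refine (main ρ ρ' L δ h h' hL hb hb' hd).2.mono le_rfl ?_
    refine mul_le_mul_of_nonneg_right ?_ hδ
    exact mul_le_mul hc1 hLc (by positivity) (Nat.cast_nonneg _)

end Pool.Agent.PRT.H11
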