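import Pool.Agent.PRT.StmtsC

/-!
Row REC of the squad PRT (problem MP_b2962a_an): the recursion.
-/

set_option autoImplicit false

namespace Pool.Agent.PRT.H11

theorem tele (x : ℕ → ℝ) (M : ℝ) : ∀ j : ℕ, (∀ i < j, |x (i + 1) - x i| ≤ M) →
    |x j - x 0| ≤ j * M := by
  intro j
  induction j with
  | zero => intro _; simp
  | succ j ih =>
    intro h
    have h1 := ih fun i hi => h i (by omega)
    have h2 := h j (by omega)
    have e : x (j + 1) - x 0 = (x (j + 1) - x j) + (x j - x 0) := by ring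
    rw [e]
    refine (abs_add_le _ _).trans ?_
    push_cast
    linarith

theorem small {ε l : ℝ} (hε : 0 < ε) (hl : 64 ≤ l) (h : ε * l ^ 400 ≤ 1) {k : ℕ} (hk : k < 400) :
    ε * l ^ k ≤ 1 / 64 := by
  have hl0 : 0 < l := by linarith
  have hl1 : 1 ≤ l := by linarith
  have h1 : l ≤ l ^ (400 - k) := by
    calc l = l ^ 1 := (pow_one l).symm
      _ ≤ l ^ (400 - k) := pow_le_pow_right₀ hl1 (by omega)
  have h2 : ε * l ^ k * l ^ (400 - k) = ε * l ^ 400 := by
    rw [mul_assoc, ← pow_add]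
    congr 2
    omega
  have h3 : 0 ≤ ε * l ^ k := by positivity
  have h4 : ε * l ^ k * 64 ≤ ε * l ^ k * l ^ (400 - k) :=
    mul_le_mul_of_nonneg_left (hl.trans h1) h3
  linarith

/-- **Row REC**. -/
theorem recu : Pool.Agent.PRT.RecStmt := by
  intro ε l n x y hε hl h400 hn hx hy
  have hl0 : 0 < l := by linarith
  have hl1 : 1 ≤ l := by linarith
  obtain ⟨iε, hi⟩ : ∃ iε, iε = ε⁻¹ := ⟨_, rfl⟩
  have hiε : ε * iε = 1 := by rw [hi]; exact mul_inv_cancel₀ hε.ne'
  have hi0 : 0 < iε := by rw [hi]; positivity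
  have hi2 : (ε ^ 2)⁻¹ = iε ^ 2 := by rw [hi, inv_pow]
  rw [hi2]
  rw [← hi] at hx
  obtain ⟨a, ha⟩ : ∃ a, a = |x 0| := ⟨_, rfl⟩
  obtain ⟨b, hb⟩ : ∃ b, b = |y 0| := ⟨_, rfl⟩
  have ha0 : 0 ≤ a := by rw [ha]; exact abs_nonneg _
  have hb0 : 0 ≤ b := by rw [hb]; exact abs_nonneg _
  rw [← ha, ← hb]
  obtain ⟨X, hX⟩ : ∃ X, X = 2 * a + iε ^ 2 * l ^ 303 * b := ⟨_, rfl⟩
  obtain ⟨Y, hY⟩ : ∃ Y, Y = 2 * b + ε ^ 3 * l ^ 43 * a := ⟨_, rfl⟩
  rw [← hX, ← hY]
  have hX0 : 0 ≤ X := by rw [hX]; positivity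
  have hY0 : 0 ≤ Y := by rw [hY]; positivity
  have hnl : (n : ℝ) * ε ≤ l ^ 2 := hn.trans (by nlinarith)
  intro j
  induction j using Nat.strong_induction_on with
  | _ j ih =>
    intro hj
    have hjn : (j : ℝ) ≤ n := by exact_mod_cast hj
    have s102 := small hε hl h400 (show 102 < 400 by norm_num)
    have s345 := small hε hl h400 (show 345 < 400 by norm_num)
    have s145 := small hε hl h400 (show 145 < 400 by norm_num)
    constructor
    · have h1 : ∀ i < j, |x (i + 1) - x i| ≤ ε ^ 2 * l ^ 100 * X + iε * l ^ 300 * Y := by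
        intro i hij
        obtain ⟨g1, g2⟩ := ih i hij (by omega)
        refine (hx i (by omega)).trans ?_
        exact add_le_add (mul_le_mul_of_nonneg_left g1 (by positivity))
          (mul_le_mul_of_nonneg_left g2 (by positivity))
      have h2 := tele x _ j h1
      have e1 : ε ^ 2 * l ^ 100 * X + iε * l ^ 300 * Y = ε * (ε * l ^ 100 * X + iε ^ 2 * l ^ 300 * Y) := by
        have : iε = ε * iε ^ 2 := by rw [pow_two, ← mul_assoc, hiε, one_mul]
        linear_combination (l ^ 300 * Y) * this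
      have h3 : (j : ℝ) * (ε ^ 2 * l ^ 100 * X + iε * l ^ 300 * Y) ≤
          l ^ 2 * (ε * l ^ 100 * X + iε ^ 2 * l ^ 300 * Y) := by
        rw [e1, ← mul_assoc]
        refine mul_le_mul_of_nonneg_right ?_ (by positivity)
        exact (mul_le_mul_of_nonneg_right hjn hε.le).trans hnl
      have e2 : l ^ 2 * (ε * l ^ 100 * X + iε ^ 2 * l ^ 300 * Y) =
          a * (2 * (ε * l ^ 102) + ε * l ^ 345) + iε ^ 2 * b * (ε * l ^ 405 + 2 * l ^ 302) := by
        have h5 : iε ^ 2 * ε ^ 3 = ε := by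
          calc iε ^ 2 * ε ^ 3 = (ε * iε) ^ 2 * ε := by ring
            _ = ε := by rw [hiε]; ring
        rw [hX, hY]
        linear_combination (l ^ 345 * a) * h5
      have h4 : a * (2 * (ε * l ^ 102) + ε * l ^ 345) ≤ a := by
        have : 2 * (ε * l ^ 102) + ε * l ^ 345 ≤ 1 := by linarith
        calc a * (2 * (ε * l ^ 102) + ε * l ^ 345) ≤ a * 1 := mul_le_mul_of_nonneg_left this ha0
          _ = a := mul_one a
      have h5 : ε * l ^ 405 + 2 * l ^ 302 ≤ l ^ 303 := by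
        have g1 : ε * l ^ 405 = ε * l ^ 400 * l ^ 5 := by ring
        have g2 : ε * l ^ 400 * l ^ 5 ≤ 1 * l ^ 5 := mul_le_mul_of_nonneg_right h400 (by positivity)
        have g3 : l ^ 5 ≤ l ^ 302 := pow_le_pow_right₀ hl1 (by norm_num)
        have g4 : l ^ 303 = l * l ^ 302 := by ring
        have g5 : 3 * l ^ 302 ≤ l * l ^ 302 :=
          mul_le_mul_of_nonneg_right (by linarith) (by positivity)
        rw [g1, g4]
        linarith
      have h6 : iε ^ 2 * b * (ε * l ^ 405 + 2 * l ^ 302) ≤ iε ^ 2 * b * l ^ 303 :=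
        mul_le_mul_of_nonneg_left h5 (by positivity)
      have h7 : |x j| ≤ |x 0| + |x j - x 0| := by
        have := abs_add_le (x 0) (x j - x 0)
        rwa [add_sub_cancel] at this
      rw [e2] at h3
      rw [← ha] at h7
      rw [hX]
      have e3 : iε ^ 2 * b * l ^ 303 = iε ^ 2 * l ^ 303 * b := by ring
      linarith
    · have h1 : ∀ i < j, |y (i + 1) - y i| ≤ ε ^ 4 * l ^ 40 * X + ε ^ 2 * l ^ 100 * Y := by
        intro i hij
        obtain ⟨g1, g2⟩ := ih i hij (by omega)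
        refine (hy i (by omega)).trans ?_
        exact add_le_add (mul_le_mul_of_nonneg_left g1 (by positivity))
          (mul_le_mul_of_nonneg_left g2 (by positivity))
      have h2 := tele y _ j h1
      have e1 : ε ^ 4 * l ^ 40 * X + ε ^ 2 * l ^ 100 * Y = ε * (ε ^ 3 * l ^ 40 * X + ε * l ^ 100 * Y) := by
        ring
      have h3 : (j : ℝ) * (ε ^ 4 * l ^ 40 * X + ε ^ 2 * l ^ 100 * Y) ≤
          l ^ 2 * (ε ^ 3 * l ^ 40 * X + ε * l ^ 100 * Y) := by
        rw [e1, ← mul_assoc]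
        refine mul_le_mul_of_nonneg_right ?_ (by positivity)
        exact (mul_le_mul_of_nonneg_right hjn hε.le).trans hnl
      have e2 : l ^ 2 * (ε ^ 3 * l ^ 40 * X + ε * l ^ 100 * Y) =
          ε ^ 3 * a * (2 * l ^ 42 + ε * l ^ 145) + b * (ε * l ^ 345 + 2 * (ε * l ^ 102)) := by
        have h5 : ε ^ 3 * iε ^ 2 = ε := by
          calc ε ^ 3 * iε ^ 2 = (ε * iε) ^ 2 * ε := by ring
            _ = ε := by rw [hiε]; ring
        rw [hX, hY]
        linear_combination (l ^ 345 * b) * h5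
      have h4 : b * (ε * l ^ 345 + 2 * (ε * l ^ 102)) ≤ b := by
        have : ε * l ^ 345 + 2 * (ε * l ^ 102) ≤ 1 := by linarith
        calc b * (ε * l ^ 345 + 2 * (ε * l ^ 102)) ≤ b * 1 := mul_le_mul_of_nonneg_left this hb0
          _ = b := mul_one b
      have h5 : 2 * l ^ 42 + ε * l ^ 145 ≤ l ^ 43 := by
        have g3 : 1 ≤ l ^ 42 := one_le_pow₀ hl1
        have g4 : l ^ 43 = l * l ^ 42 := by ring
        have g5 : 3 * l ^ 42 ≤ l * l ^ 42 :=
          mul_le_mul_of_nonneg_right (by linarith) (by positivity)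
        rw [g4]
        linarith
      have h6 : ε ^ 3 * a * (2 * l ^ 42 + ε * l ^ 145) ≤ ε ^ 3 * a * l ^ 43 :=
        mul_le_mul_of_nonneg_left h5 (by positivity)
      have h7 : |y j| ≤ |y 0| + |y j - y 0| := by
        have := abs_add_le (y 0) (y j - y 0)
        rwa [add_sub_cancel] at this
      rw [e2] at h3
      rw [← hb] at h7
      rw [hY]
      have e3 : ε ^ 3 * a * l ^ 43 = ε ^ 3 * l ^ 43 * a := by ring
      linarith

end Pool.Agent.PRT.H11
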